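import Mathlib

set_option linter.unusedSectionVars false

namespace Pool.Agent.Results.MP_b56e9d_an.CommutingPerturbation

open Module

variable {H : Type*} [NormedAddCommGroup H] [InnerProductSpace ℂ H] [CompleteSpace H]

/-- A bounded operator `T` on a Hilbert space is Fredholm if its range is closed and its kernel
and cokernel are finite-dimensional. -/
structure IsFredholmOp (T : H →L[ℂ] H) : Prop where
  closed_range : IsClosed (LinearMap.range (T : H →ₗ[ℂ] H) : Set H)
  finite_ker : FiniteDimensional ℂ (LinearMap.ker (T : H →ₗ[ℂ] H))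
  finite_coker : FiniteDimensional ℂ (H ⧸ LinearMap.range (T : H →ₗ[ℂ] H))

/-- The Fredholm index `dim ker T - dim coker T`. -/
noncomputable def index (T : H →L[ℂ] H) : ℤ :=
  (finrank ℂ (LinearMap.ker (T : H →ₗ[ℂ] H)) : ℤ) -
    (finrank ℂ (H ⧸ LinearMap.range (T : H →ₗ[ℂ] H)) : ℤ)

/-- (Taylor) invertibility of a commuting pair `(S₁, S₂)`: exactness of its Koszul complex. -/
def TaylorInvertible (S₁ S₂ : H →L[ℂ] H) : Prop :=
  (∀ x : H, S₁ x = 0 → S₂ x = 0 → x = 0) ∧
  (∀ y : H, ∃ u v : H, S₁ u + S₂ v = y) ∧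
  (∀ x y : H, S₁ y = S₂ x → ∃ z : H, x = S₁ z ∧ y = S₂ z)

/-! ### Compact perturbations of nonzero scalars -/

/-- If `c ≠ 0`, `C` is compact and `c + C` is injective, then it is bijective. -/
lemma bijective_of_injective {C : H →L[ℂ] H} (hC : IsCompactOperator C) {c : ℂ} (hc : c ≠ 0)
    (hinj : Function.Injective (c • (1 : H →L[ℂ] H) + C)) :
    Function.Bijective (c • (1 : H →L[ℂ] H) + C) := by
  have hc' : -c ≠ 0 := neg_ne_zero.2 hc
  rcases hC.hasEigenvalue_or_mem_resolventSet hc' with h | h
  · exfalso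
    obtain ⟨x, hx⟩ := h.exists_hasEigenvector
    apply hx.2
    apply hinj
    have h1 : C x = -c • x := hx.apply_eq_smul
    simp [h1]
  · rw [spectrum.mem_resolventSet_iff] at h
    rw [← ContinuousLinearMap.isUnit_iff_bijective]
    have e : (c • (1 : H →L[ℂ] H) + C) = -(algebraMap ℂ (H →L[ℂ] H) (-c) - C) := by
      rw [Algebra.algebraMap_eq_smul_one, neg_smul]; abel
    rw [e, IsUnit.neg_iff]
    exact h

/-- A surjective operator has a continuous right inverse. -/
lemma exists_right_inverse {E : H →L[ℂ] H} (hE : Function.Surjective E) :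
    ∃ G : H →L[ℂ] H, ∀ x, E (G x) = x := by
  set K : Submodule ℂ H := LinearMap.ker (E : H →ₗ[ℂ] H) with hK
  have hKc : IsClosed (K : Set H) := E.isClosed_ker
  have : CompleteSpace K := hKc.completeSpace_coe
  let E₁ : Kᗮ →L[ℂ] H := E ∘L Kᗮ.subtypeL
  have hbij : Function.Bijective E₁ := by
    constructor
    · rw [injective_iff_map_eq_zero]
      rintro ⟨x, hx⟩ h
      have hx' : x ∈ K := h
      have : x ∈ K ⊓ Kᗮ := ⟨hx', hx⟩
      rw [K.inf_orthogonal_eq_bot] at this
      simpa using this
    · intro y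
      obtain ⟨x, hx⟩ := hE y
      refine ⟨⟨x - K.starProjection x, K.sub_starProjection_mem_orthogonal x⟩, ?_⟩
      have h2 : E (K.starProjection x) = 0 := by
        have : K.starProjection x ∈ K := K.starProjection_apply_mem x
        exact this
      change E (x - K.starProjection x) = y
      rw [map_sub, h2, hx, sub_zero]
  let e := ContinuousLinearEquiv.ofBijective E₁ (LinearMap.ker_eq_bot.2 hbij.1)
    (LinearMap.range_eq_top.2 hbij.2)
  refine ⟨Kᗮ.subtypeL ∘L (e.symm : H →L[ℂ] Kᗮ), fun x => ?_⟩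
  exact ContinuousLinearEquiv.ofBijective_apply_symm_apply E₁ (LinearMap.ker_eq_bot.2 hbij.1)
    (LinearMap.range_eq_top.2 hbij.2) x

/-- If `c ≠ 0`, `C` is compact and `c + C` is surjective, then it is injective. -/
lemma injective_of_surjective {C : H →L[ℂ] H} (hC : IsCompactOperator C) {c : ℂ} (hc : c ≠ 0)
    (hsurj : Function.Surjective (c • (1 : H →L[ℂ] H) + C)) :
    Function.Injective (c • (1 : H →L[ℂ] H) + C) := by
  obtain ⟨G, hG⟩ := exists_right_inverse hsurj
  have hGeq : G = c⁻¹ • (1 : H →L[ℂ] H) + (-(c⁻¹ • (C ∘L G))) := by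
    ext x
    have := hG x
    simp only [add_apply, smul_apply, one_apply_eq_self] at this
    simp only [add_apply, smul_apply, one_apply_eq_self, neg_apply,
      ContinuousLinearMap.comp_apply]
    have h2 : c⁻¹ • (c • G x + C (G x)) = c⁻¹ • x := by rw [this]
    rw [smul_add, smul_smul, inv_mul_cancel₀ hc, one_smul] at h2
    rw [← h2]; abel
  have hinj : Function.Injective G := by
    intro x y h
    rw [← hG x, ← hG y, h]
  have hcomp : IsCompactOperator (-(c⁻¹ • (C ∘L G)) : H →L[ℂ] H) := by
    have h1 : IsCompactOperator (C ∘L G : H →L[ℂ] H) := hC.comp_clm G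
    have h2 : IsCompactOperator (c⁻¹ • (C ∘L G) : H →L[ℂ] H) := h1.smul c⁻¹
    exact h2.neg
  have hbij : Function.Bijective G := by
    rw [hGeq] at hinj ⊢
    exact bijective_of_injective hcomp (inv_ne_zero hc) hinj
  intro x y h
  obtain ⟨x', rfl⟩ := hbij.2 x
  obtain ⟨y', rfl⟩ := hbij.2 y
  rw [hG, hG] at h
  rw [h]

/-- The kernel of `c + C` is finite-dimensional. -/
lemma finite_ker_of_compact {C : H →L[ℂ] H} (hC : IsCompactOperator C) {c : ℂ} (hc : c ≠ 0) :
    FiniteDimensional ℂ (LinearMap.ker ((c • (1 : H →L[ℂ] H) + C : H →L[ℂ] H) : H →ₗ[ℂ] H)) := by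
  set E : H →L[ℂ] H := c • (1 : H →L[ℂ] H) + C with hE
  set K : Submodule ℂ H := LinearMap.ker (E : H →ₗ[ℂ] H) with hK
  have hKc : IsClosed (K : Set H) := E.isClosed_ker
  have key : ∀ v ∈ K, C v = -c • v := by
    intro v hv
    have h1 : c • v + C v = 0 := by
      have : E v = 0 := hv
      simpa [hE] using this
    rw [neg_smul]
    exact eq_neg_of_add_eq_zero_right h1
  have hmap : ∀ v ∈ K, (C : H →ₗ[ℂ] H) v ∈ K := by
    intro v hv
    change C v ∈ K
    rw [key v hv]
    exact K.smul_mem _ hv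
  have h1 := IsCompactOperator.restrict (f := (C : H →ₗ[ℂ] H)) hC hmap hKc
  have h2 : IsCompactOperator (_root_.id : K → K) := by
    have h3 : (_root_.id : K → K) = (-c)⁻¹ • ((C : H →ₗ[ℂ] H).restrict hmap : K → K) := by
      ext v
      have := key v.1 v.2
      simp only [Pi.smul_apply, id, Submodule.coe_smul]
      change (v : H) = (-c)⁻¹ • (C v.1)
      rw [this, smul_smul, inv_mul_cancel₀ (neg_ne_zero.2 hc), one_smul]
    rw [h3]
    exact h1.smul _
  exact FiniteDimensional.of_isCompactOperator_id h2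

/-- Finite rank operators obtained from a map on a finite-dimensional subspace are compact. -/
lemma compact_through_fin {K : Type*} [NormedAddCommGroup K] [NormedSpace ℂ K]
    [FiniteDimensional ℂ K] (J : K →L[ℂ] H) (P : H →L[ℂ] K) :
    IsCompactOperator (J ∘L P : H →L[ℂ] H) := by
  have h1 : IsCompactOperator (_root_.id : K → K) :=
    isCompactOperator_id_iff_finiteDimensional (𝕜 := ℂ) |>.2 inferInstance
  have h2 : IsCompactOperator (P : H → K) := h1.comp_clm P
  exact h2.clm_comp J

/-- **Index zero**: for `c ≠ 0` and `C` compact, the operator `c + C` has finite-dimensional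
cokernel, of the same dimension as its kernel. -/
lemma index_zero_of_compact {C : H →L[ℂ] H} (hC : IsCompactOperator C) {c : ℂ} (hc : c ≠ 0) :
    FiniteDimensional ℂ (H ⧸ LinearMap.range
      ((c • (1 : H →L[ℂ] H) + C : H →L[ℂ] H) : H →ₗ[ℂ] H)) ∧
    finrank ℂ (LinearMap.ker ((c • (1 : H →L[ℂ] H) + C : H →L[ℂ] H) : H →ₗ[ℂ] H)) =
      finrank ℂ (H ⧸ LinearMap.range
      ((c • (1 : H →L[ℂ] H) + C : H →L[ℂ] H) : H →ₗ[ℂ] H)) := by
  have hKfin := finite_ker_of_compact hC hc
  set E : H →L[ℂ] H := c • (1 : H →L[ℂ] H) + C with hE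
  set K : Submodule ℂ H := LinearMap.ker (E : H →ₗ[ℂ] H) with hK
  set R : Submodule ℂ H := LinearMap.range (E : H →ₗ[ℂ] H) with hR
  obtain ⟨s, hs⟩ := LinearMap.exists_rightInverse_of_surjective R.mkQ R.range_mkQ
  have hs' : ∀ q, R.mkQ (s q) = q := fun q => by
    have := LinearMap.congr_fun hs q
    simpa using this
  have hER : ∀ x, R.mkQ (E x) = 0 := by
    intro x
    rw [Submodule.mkQ_apply, Submodule.Quotient.mk_eq_zero]
    exact ⟨x, rfl⟩
  have aux : ∀ φ : K →ₗ[ℂ] (H ⧸ R), Function.Injective φ ↔ Function.Surjective φ := by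
    intro φ
    let P : H →L[ℂ] K := K.orthogonalProjectionOnto
    have hP : ∀ k : K, P (k : H) = k := fun k =>
      Submodule.orthogonalProjectionOnto_mem_subspace_eq_self k
    let J : K →L[ℂ] H := LinearMap.toContinuousLinearMap (s ∘ₗ φ)
    have hJ : ∀ k, J k = s (φ k) := fun k => rfl
    have hcomp : IsCompactOperator (C + J ∘L P : H →L[ℂ] H) := hC.add (compact_through_fin J P)
    have hE' : ∀ x, (c • (1 : H →L[ℂ] H) + (C + J ∘L P)) x = E x + s (φ (P x)) := by
      intro x
      simp [hE, hJ, add_assoc]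
    have hq : ∀ x, R.mkQ ((c • (1 : H →L[ℂ] H) + (C + J ∘L P)) x) = φ (P x) := by
      intro x
      rw [hE', map_add, hER, hs', zero_add]
    constructor
    · intro hφ
      have hinj : Function.Injective (c • (1 : H →L[ℂ] H) + (C + J ∘L P)) := by
        rw [injective_iff_map_eq_zero]
        intro x hx
        have h1 := hq x
        rw [hx, map_zero] at h1
        have h2 : P x = 0 := hφ (by rw [map_zero]; exact h1.symm)
        rw [hE', h2, map_zero, map_zero, add_zero] at hx
        have h3 := hP ⟨x, hx⟩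
        change P x = _ at h3
        rw [h2] at h3
        exact (congrArg Subtype.val h3).symm
      have hb := bijective_of_injective hcomp hc hinj
      intro q
      obtain ⟨x, hx⟩ := hb.2 (s q)
      refine ⟨P x, ?_⟩
      rw [← hq, hx, hs']
    · intro hφ
      have hsurj : Function.Surjective (c • (1 : H →L[ℂ] H) + (C + J ∘L P)) := by
        intro y
        obtain ⟨k, hk⟩ := hφ (R.mkQ y)
        have h1 : y - s (φ k) ∈ R := by
          rw [← Submodule.Quotient.mk_eq_zero, ← Submodule.mkQ_apply, map_sub, hs', hk, sub_self]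
        obtain ⟨x, hx⟩ := h1
        refine ⟨x - (P x : H) + k, ?_⟩
        have h2 : P (x - (P x : H) + k) = k := by
          rw [map_add, map_sub, hP, hP, sub_self, zero_add]
        have h3 : E (x - (P x : H) + k) = E x := by
          have h4 : E (P x : H) = 0 := (P x).2
          have h5 : E (k : H) = 0 := k.2
          rw [map_add, map_sub, h4, h5, sub_zero, add_zero]
        rw [hE', h2, h3]
        change E x = _ at hx
        rw [hx]; abel
      have hinj := injective_of_surjective hcomp hc hsurj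
      rw [injective_iff_map_eq_zero]
      intro k hk
      have h1 : (c • (1 : H →L[ℂ] H) + (C + J ∘L P)) (k : H) = 0 := by
        rw [hE', hP, hk, map_zero, add_zero]
        exact k.2
      have h2 : (k : H) = 0 := hinj (by rw [h1, map_zero])
      exact_mod_cast h2
  rcases le_total (Module.rank ℂ K) (Module.rank ℂ (H ⧸ R)) with h | h
  · obtain ⟨φ, hφ⟩ := rank_le_iff_exists_linearMap.1 h
    let e := LinearEquiv.ofBijective φ ⟨hφ, (aux φ).1 hφ⟩
    exact ⟨Module.Finite.equiv e, e.finrank_eq⟩
  · obtain ⟨ψ, hψ⟩ := rank_le_iff_exists_linearMap.1 h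
    obtain ⟨φ, hφ⟩ := LinearMap.exists_leftInverse_of_injective ψ (LinearMap.ker_eq_bot.2 hψ)
    have hsurj : Function.Surjective φ := fun q => ⟨ψ q, by
      have := LinearMap.congr_fun hφ q
      simpa using this⟩
    let e := LinearEquiv.ofBijective φ ⟨(aux φ).2 hsurj, hsurj⟩
    exact ⟨Module.Finite.equiv e, e.finrank_eq⟩

/-- `E` is a nonzero scalar plus a compact operator. -/
def IsScalarCompact (E : H →L[ℂ] H) : Prop :=
  ∃ c : ℂ, c ≠ 0 ∧ ∃ C : H →L[ℂ] H, IsCompactOperator C ∧ E = c • (1 : H →L[ℂ] H) + C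

lemma IsScalarCompact.mul {E F : H →L[ℂ] H} (hE : IsScalarCompact E) (hF : IsScalarCompact F) :
    IsScalarCompact (E * F) := by
  obtain ⟨c, hc, C, hC, rfl⟩ := hE
  obtain ⟨d, hd, D, hD, rfl⟩ := hF
  refine ⟨c * d, mul_ne_zero hc hd, c • D + d • C + C * D, ?_, ?_⟩
  · have h1 : IsCompactOperator (c • D : H →L[ℂ] H) := hD.smul c
    have h2 : IsCompactOperator (d • C : H →L[ℂ] H) := hC.smul d
    have h3 : IsCompactOperator (C * D : H →L[ℂ] H) := hC.comp_clm D
    exact (h1.add h2).add h3
  · rw [add_mul, mul_add, mul_add, smul_mul_smul_comm, mul_one, smul_mul_assoc, one_mul,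
      mul_smul_comm, mul_one]
    abel

lemma isScalarCompact_one : IsScalarCompact (1 : H →L[ℂ] H) :=
  ⟨1, one_ne_zero, 0, isCompactOperator_zero, by simp⟩

lemma IsScalarCompact.pow {E : H →L[ℂ] H} (hE : IsScalarCompact E) (n : ℕ) :
    IsScalarCompact (E ^ n) := by
  induction n with
  | zero => rw [pow_zero]; exact isScalarCompact_one
  | succ n ih => rw [pow_succ]; exact ih.mul hE

/-- The kernels of the powers of a scalar plus compact operator stabilise. -/
lemma IsScalarCompact.ascent {E : H →L[ℂ] H} (hE : IsScalarCompact E) :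
    ∃ n : ℕ, ∀ x, (E ^ (n + 1)) x = 0 → (E ^ n) x = 0 := by
  obtain ⟨c, hc, C, hC, hEq⟩ := hE
  by_contra hcon
  push Not at hcon
  -- the kernels
  let K : ℕ → Submodule ℂ H := fun n => LinearMap.ker ((E ^ n : H →L[ℂ] H) : H →ₗ[ℂ] H)
  have hKmem : ∀ n x, x ∈ K n ↔ (E ^ n) x = 0 := fun n x => Iff.rfl
  have hKmono : Monotone K := by
    apply monotone_nat_of_le_succ
    intro n x hx
    rw [hKmem] at hx ⊢
    rw [pow_succ', mul_apply_eq_comp, hx, map_zero]
  have hEK : ∀ n x, x ∈ K (n + 1) → E x ∈ K n := by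
    intro n x hx
    rw [hKmem] at hx ⊢
    rw [pow_succ, mul_apply_eq_comp] at hx
    exact hx
  have hex : ∀ n, ∃ x : H, x ∈ K (n + 1) ∧ (∀ w ∈ K n, inner ℂ x w = 0) ∧ ‖x‖ = 1 := by
    intro n
    obtain ⟨x, hx1, hx2⟩ := hcon n
    have hKc : IsClosed (K n : Set H) := (E ^ n).isClosed_ker
    have : CompleteSpace (K n) := hKc.completeSpace_coe
    let y : H := x - (K n).starProjection x
    have hy1 : y ∈ K (n + 1) :=
      (K (n + 1)).sub_mem hx1 (hKmono (Nat.le_succ n) ((K n).starProjection_apply_mem x))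
    have hy2 : y ∈ (K n)ᗮ := (K n).sub_starProjection_mem_orthogonal x
    have hy3 : y ≠ 0 := by
      intro h
      apply hx2
      have h2 : x = (K n).starProjection x := sub_eq_zero.1 h
      have h3 : x ∈ K n := by rw [h2]; exact (K n).starProjection_apply_mem x
      exact h3
    refine ⟨((‖y‖ : ℂ)⁻¹) • y, (K (n + 1)).smul_mem _ hy1, ?_, ?_⟩
    · intro w hw
      rw [inner_smul_left, (K n).inner_left_of_mem_orthogonal hw hy2, mul_zero]
    · rw [norm_smul, norm_inv, Complex.norm_real, norm_norm,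
        inv_mul_cancel₀ (norm_ne_zero_iff.2 hy3)]
  choose x hx1 hx2 hx3 using hex
  have hfar : ∀ m n, m < n → ‖c‖ ≤ ‖C (x n) - C (x m)‖ := by
    intro m n hmn
    have hCx : ∀ z, C z = E z - c • z := by
      intro z; rw [hEq]; simp
    set w : H := E (x n) - (E (x m) - c • x m) with hw
    have hwK : w ∈ K n := by
      apply (K n).sub_mem (hEK n _ (hx1 n))
      apply (K n).sub_mem
      · exact hKmono hmn.le (hEK m _ (hx1 m))
      · exact (K n).smul_mem _ (hKmono hmn (hx1 m))
    have h1 : C (x n) - C (x m) = w - c • x n := by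
      rw [hCx, hCx, hw]; abel
    have h2 : inner ℂ (x n) (w - c • x n) = -c := by
      rw [inner_sub_right, hx2 n w hwK, inner_smul_right, inner_self_eq_norm_sq_to_K, hx3]
      simp
    rw [h1]
    calc ‖c‖ = ‖inner ℂ (x n) (w - c • x n)‖ := by rw [h2, norm_neg]
      _ ≤ ‖x n‖ * ‖w - c • x n‖ := norm_inner_le_norm _ _
      _ = ‖w - c • x n‖ := by rw [hx3, one_mul]
  obtain ⟨S, hS, hS'⟩ := hC.image_closedBall_subset_compact (𝕜₁ := ℂ) 1
  obtain ⟨y, -, ψ, hψ, hψy⟩ := hS.tendsto_subseq (x := fun n => C (x n))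
    (fun n => hS' ⟨x n, by simp [hx3], rfl⟩)
  have hcau := hψy.cauchySeq
  rw [Metric.cauchySeq_iff'] at hcau
  obtain ⟨M, hM⟩ := hcau ‖c‖ (norm_pos_iff.2 hc)
  have h1 := hM (M + 1) (Nat.le_succ M)
  rw [dist_eq_norm] at h1
  exact absurd (hfar (ψ M) (ψ (M + 1)) (hψ (Nat.lt_succ_self M))) (not_le.2 h1)

/-- Polynomials of intertwined endomorphisms are intertwined. -/
lemma intertwine {M M' : Type*} [AddCommGroup M] [Module ℂ M] [AddCommGroup M'] [Module ℂ M']
    (g : M →ₗ[ℂ] M') (D : Module.End ℂ M) (D' : Module.End ℂ M')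
    (h : ∀ x, g (D x) = D' (g x)) (p : Polynomial ℂ) (x : M) :
    g (Polynomial.aeval D p x) = Polynomial.aeval D' p (g x) := by
  induction p using Polynomial.induction_on' generalizing x with
  | add p q hp hq => simp [hp, hq]
  | monomial n a =>
    simp only [Polynomial.aeval_monomial, Module.End.mul_apply, Module.algebraMap_end_apply,
      map_smul]
    congr 1
    induction n generalizing x with
    | zero => simp
    | succ n ih =>
      rw [pow_succ, pow_succ, Module.End.mul_apply, Module.End.mul_apply, ih, h]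

/-- Polynomials in a compact operator with nonzero constant term. -/
lemma isScalarCompact_aeval {D : H →L[ℂ] H} (hD : IsCompactOperator D) {p : Polynomial ℂ}
    (hp : p.coeff 0 ≠ 0) : IsScalarCompact (Polynomial.aeval D p) := by
  refine ⟨p.coeff 0, hp, Polynomial.aeval D p.divX * D, ?_, ?_⟩
  · exact hD.clm_comp (Polynomial.aeval D p.divX)
  · conv_lhs => rw [← Polynomial.divX_mul_X_add p]
    rw [map_add, map_mul, Polynomial.aeval_X, Polynomial.aeval_C,
      Algebra.algebraMap_eq_smul_one, add_comm]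

/-- **Key step.** Let `A` have finite-dimensional kernel and cokernel and let the compact
operator `D` commute with `A`, act injectively on `ker A` and surjectively on `coker A`. Then `A`
has index zero. -/
lemma index_zero_of_commuting {A D : H →L[ℂ] H}
    (hk : FiniteDimensional ℂ (LinearMap.ker (A : H →ₗ[ℂ] H)))
    (hr : FiniteDimensional ℂ (H ⧸ LinearMap.range (A : H →ₗ[ℂ] H)))
    (hD : IsCompactOperator D) (hcomm : ∀ x, A (D x) = D (A x))
    (hinj : ∀ x, A x = 0 → D x = 0 → x = 0)
    (hsurj : ∀ y : H, ∃ u v : H, A u + D v = y) :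
    finrank ℂ (LinearMap.ker (A : H →ₗ[ℂ] H)) =
      finrank ℂ (H ⧸ LinearMap.range (A : H →ₗ[ℂ] H)) := by
  set V : Submodule ℂ H := LinearMap.ker (A : H →ₗ[ℂ] H) with hV
  set R : Submodule ℂ H := LinearMap.range (A : H →ₗ[ℂ] H) with hR
  have hVmem : ∀ x, x ∈ V ↔ A x = 0 := fun x => Iff.rfl
  have hRmem : ∀ x, x ∈ R ↔ ∃ y, A y = x := fun x => Iff.rfl
  have hDV : ∀ v ∈ V, (D : H →ₗ[ℂ] H) v ∈ V := by
    intro v hv
    rw [hVmem] at hv ⊢
    change A (D v) = 0
    rw [hcomm, hv, map_zero]
  have hDR : R ≤ R.comap (D : H →ₗ[ℂ] H) := by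
    rintro _ ⟨y, rfl⟩
    exact ⟨D y, hcomm y⟩
  -- the induced operators
  let f : Module.End ℂ V := (D : H →ₗ[ℂ] H).restrict hDV
  let g : Module.End ℂ (H ⧸ R) := R.mapQ R (D : H →ₗ[ℂ] H) hDR
  have hf : Function.Injective f := by
    rw [injective_iff_map_eq_zero]
    intro v hv
    have h1 : D (v : H) = 0 := congrArg Subtype.val hv
    exact Subtype.ext (hinj v v.2 h1)
  have hg : Function.Surjective g := by
    intro q
    obtain ⟨y, rfl⟩ := R.mkQ_surjective q
    obtain ⟨u, v, huv⟩ := hsurj y
    refine ⟨R.mkQ v, ?_⟩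
    have h1 : g (R.mkQ v) = R.mkQ (D v) := rfl
    rw [h1, ← huv, map_add]
    have h2 : R.mkQ (A u) = 0 := by
      rw [Submodule.mkQ_apply, Submodule.Quotient.mk_eq_zero]
      exact ⟨u, rfl⟩
    rw [h2, zero_add]
  have hfu : IsUnit f := by
    rw [Module.End.isUnit_iff]
    exact ⟨hf, LinearMap.injective_iff_surjective.1 hf⟩
  have hgu : IsUnit g := by
    rw [Module.End.isUnit_iff]
    exact ⟨LinearMap.injective_iff_surjective.2 hg, hg⟩
  have hf0 : f.charpoly.coeff 0 ≠ 0 := by
    have h1 := LinearMap.det_eq_sign_charpoly_coeff f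
    have h2 : LinearMap.det f ≠ 0 := (LinearMap.isUnit_det f hfu).ne_zero
    intro h3
    rw [h3, mul_zero] at h1
    exact h2 h1
  have hg0 : g.charpoly.coeff 0 ≠ 0 := by
    have h1 := LinearMap.det_eq_sign_charpoly_coeff g
    have h2 : LinearMap.det g ≠ 0 := (LinearMap.isUnit_det g hgu).ne_zero
    intro h3
    rw [h3, mul_zero] at h1
    exact h2 h1
  let p : Polynomial ℂ := f.charpoly * g.charpoly
  have hp0 : p.coeff 0 ≠ 0 := by
    rw [Polynomial.mul_coeff_zero]
    exact mul_ne_zero hf0 hg0
  let E : H →L[ℂ] H := Polynomial.aeval D p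
  have hEsc : IsScalarCompact E := isScalarCompact_aeval hD hp0
  -- E as a polynomial in the linear map
  have hElin : ∀ x, E x = Polynomial.aeval ((D : H →ₗ[ℂ] H) : Module.End ℂ H) p x := by
    intro x
    have hpow : ∀ n : ℕ, ∀ x, (D ^ n) x = (((D : H →ₗ[ℂ] H) : Module.End ℂ H) ^ n) x := by
      intro n
      induction n with
      | zero => intro x; simp
      | succ n ih =>
        intro x
        rw [pow_succ, pow_succ, Module.End.mul_apply, mul_apply_eq_comp, ih]
        rfl
    have key : ∀ q : Polynomial ℂ, (Polynomial.aeval D q) x =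
        Polynomial.aeval ((D : H →ₗ[ℂ] H) : Module.End ℂ H) q x := by
      intro q
      induction q using Polynomial.induction_on' with
      | add p q hp hq => simp [hp, hq]
      | monomial n a =>
        simp only [Polynomial.aeval_monomial, Module.End.mul_apply, mul_apply_eq_comp,
          Algebra.algebraMap_eq_smul_one, smul_apply, one_apply_eq_self, hpow]
        rfl
    exact key p
  have hEV : ∀ x ∈ V, E x = 0 := by
    intro x hx
    have h1 := intertwine V.subtype f ((D : H →ₗ[ℂ] H) : Module.End ℂ H) (fun _ => rfl) p ⟨x, hx⟩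
    have h2 : Polynomial.aeval f p = 0 := by
      change Polynomial.aeval f (f.charpoly * g.charpoly) = 0
      rw [map_mul, LinearMap.aeval_self_charpoly, zero_mul]
    rw [h2] at h1
    rw [hElin]
    simpa using h1.symm
  have hER : ∀ x, E x ∈ R := by
    intro x
    have h1 := intertwine R.mkQ ((D : H →ₗ[ℂ] H) : Module.End ℂ H) g (fun _ => rfl) p x
    have h2 : Polynomial.aeval g p = 0 := by
      change Polynomial.aeval g (f.charpoly * g.charpoly) = 0
      rw [map_mul, LinearMap.aeval_self_charpoly, mul_zero]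
    rw [h2, ← hElin] at h1
    rw [← Submodule.Quotient.mk_eq_zero, ← Submodule.mkQ_apply, h1]
    rfl
  have hEA : ∀ x, A (E x) = E (A x) := by
    intro x
    have h1 : Commute A D := by
      ext x; exact hcomm x
    have h2 : Commute A E := by
      change Commute A (Polynomial.aeval D p)
      induction p using Polynomial.induction_on' with
      | add p q hp hq => rw [map_add]; exact hp.add_right hq
      | monomial n a =>
        rw [Polynomial.aeval_monomial]
        exact (Algebra.commute_algebraMap_right a A).mul_right (h1.pow_right n)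
    exact congrArg (fun T : H →L[ℂ] H => T x) h2.eq
  -- the Riesz decomposition
  obtain ⟨n, hn⟩ := hEsc.ascent
  have hstab : ∀ k x, (E ^ (n + 1 + k)) x = 0 → (E ^ (n + 1)) x = 0 := by
    intro k
    induction k with
    | zero => intro x hx; exact hx
    | succ k ih =>
      intro x hx
      apply ih
      have h1 : (E ^ (n + 1)) ((E ^ (k + 1)) x) = 0 := by
        rw [← mul_apply_eq_comp, ← pow_add]; exact hx
      have h2 := hn _ h1
      have h3 : (E ^ (n + 1 + k)) x = 0 := by
        have e : n + 1 + k = n + (k + 1) := by ring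
        rw [e, pow_add, mul_apply_eq_comp]; exact h2
      exact h3
  set F : H →L[ℂ] H := E ^ (n + 1) with hF
  have hFsc : IsScalarCompact F := hEsc.pow (n + 1)
  set N : Submodule ℂ H := LinearMap.ker (F : H →ₗ[ℂ] H) with hN
  set Q : Submodule ℂ H := LinearMap.range (F : H →ₗ[ℂ] H) with hQ
  have hNmem : ∀ x, x ∈ N ↔ F x = 0 := fun x => Iff.rfl
  have hNfin : FiniteDimensional ℂ N := by
    obtain ⟨c, hc, C, hC, hEq⟩ := hFsc
    have := finite_ker_of_compact hC hc
    rw [← hEq] at this
    exact this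
  have hcok : FiniteDimensional ℂ (H ⧸ Q) ∧ finrank ℂ N = finrank ℂ (H ⧸ Q) := by
    obtain ⟨c, hc, C, hC, hEq⟩ := hFsc
    have := index_zero_of_compact hC hc
    rw [← hEq] at this
    exact this
  have hFA : ∀ x, A (F x) = F (A x) := by
    intro x
    have h2 : Commute A E := by ext x; exact hEA x
    exact congrArg (fun T : H →L[ℂ] H => T x) (h2.pow_right (n + 1)).eq
  have hdisj : ∀ x, x ∈ N → x ∈ Q → x = 0 := by
    rintro _ hx ⟨y, rfl⟩
    rw [hNmem] at hx
    change F y = 0
    change F (F y) = 0 at hx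
    apply hstab (n + 1)
    rw [pow_add, mul_apply_eq_comp]
    exact hx
  -- every vector splits
  have hsplit : ∀ x : H, ∃ a ∈ N, ∃ b ∈ Q, a + b = x := by
    have := hcok.1
    let φ : N →ₗ[ℂ] (H ⧸ Q) := Q.mkQ ∘ₗ N.subtype
    have hφ : Function.Injective φ := by
      rw [injective_iff_map_eq_zero]
      intro a ha
      have h1 : (a : H) ∈ Q := by
        rw [← Submodule.Quotient.mk_eq_zero]; exact ha
      exact Subtype.ext (hdisj a a.2 h1)
    have hφs : Function.Surjective φ :=
      (LinearMap.injective_iff_surjective_of_finrank_eq_finrank hcok.2).1 hφ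
    intro x
    obtain ⟨a, ha⟩ := hφs (Q.mkQ x)
    refine ⟨a, a.2, x - a, ?_, by abel⟩
    rw [← Submodule.Quotient.mk_eq_zero, ← Submodule.mkQ_apply, map_sub, ← ha]
    exact sub_self _
  have hVN : V ≤ N := by
    intro x hx
    rw [hNmem, hF, pow_succ, mul_apply_eq_comp, hEV x hx, map_zero]
  have hQR : Q ≤ R := by
    rintro _ ⟨y, rfl⟩
    change F y ∈ R
    rw [hF, pow_succ', mul_apply_eq_comp]
    exact hER _
  have hAN : ∀ x ∈ N, (A : H →ₗ[ℂ] H) x ∈ N := by
    intro x hx
    rw [hNmem] at hx ⊢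
    change F (A x) = 0
    rw [← hFA, hx, map_zero]
  have hAQ : ∀ x ∈ Q, A x ∈ Q := by
    rintro _ ⟨y, rfl⟩
    exact ⟨A y, (hFA y).symm⟩
  let AN : N →ₗ[ℂ] N := (A : H →ₗ[ℂ] H).restrict hAN
  let π : N →ₗ[ℂ] (H ⧸ R) := R.mkQ ∘ₗ N.subtype
  have hπs : Function.Surjective π := by
    intro q
    obtain ⟨y, rfl⟩ := R.mkQ_surjective q
    obtain ⟨a, ha, b, hb, hab⟩ := hsplit y
    refine ⟨⟨a, ha⟩, ?_⟩
    change R.mkQ a = R.mkQ y
    rw [← hab, map_add]
    have h2 : R.mkQ b = 0 := by
      rw [Submodule.mkQ_apply, Submodule.Quotient.mk_eq_zero]; exact hQR hb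
    rw [h2, add_zero]
  have hker : LinearMap.ker π = LinearMap.range AN := by
    ext ⟨x, hx⟩
    constructor
    · intro h
      have h1 : x ∈ R := by
        rw [← Submodule.Quotient.mk_eq_zero]; exact h
      obtain ⟨y, hy⟩ := h1
      obtain ⟨a, ha, b, hb, hab⟩ := hsplit y
      have h2 : A b ∈ N := by
        have h3 : A b = x - A a := by
          rw [← hab] at hy
          rw [← hy]
          change A b = A (a + b) - A a
          rw [map_add]; abel
        rw [h3]
        exact N.sub_mem hx (hAN a ha)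
      have h4 : A b = 0 := hdisj _ h2 (hAQ b hb)
      refine ⟨⟨a, ha⟩, Subtype.ext ?_⟩
      change A a = x
      rw [← hy, ← hab]
      change A a = A (a + b)
      rw [map_add, h4, add_zero]
    · rintro ⟨y, hy⟩
      have h1 : A (y : H) = x := congrArg Subtype.val hy
      change R.mkQ x = 0
      rw [Submodule.mkQ_apply, Submodule.Quotient.mk_eq_zero]
      exact ⟨y, h1⟩
  have e1 := LinearMap.finrank_range_add_finrank_ker π
  have e2 := LinearMap.finrank_range_add_finrank_ker AN
  rw [hker, LinearMap.range_eq_top.2 hπs, finrank_top] at e1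
  have e3 : finrank ℂ (LinearMap.ker AN) = finrank ℂ V := by
    let ι : LinearMap.ker AN →ₗ[ℂ] V :=
      { toFun := fun x => ⟨x.1.1, by
          have : AN x.1 = 0 := x.2
          exact congrArg Subtype.val this⟩
        map_add' := fun x y => rfl
        map_smul' := fun c x => rfl }
    apply LinearEquiv.finrank_eq
    refine LinearEquiv.ofBijective ι ⟨?_, ?_⟩
    · intro x y h
      have h1 : x.1.1 = y.1.1 := congrArg (fun z : V => (z : H)) h
      exact Subtype.ext (Subtype.ext h1)
    · intro v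
      exact ⟨⟨⟨v.1, hVN v.2⟩, Subtype.ext v.2⟩, rfl⟩
  rw [e3] at e2
  omega

/-! ### Fredholm operators -/

/-- A parametrix of a Fredholm operator. -/
lemma IsFredholmOp.parametrix {T : H →L[ℂ] H} (hT : IsFredholmOp T) :
    ∃ S K L : H →L[ℂ] H, IsCompactOperator K ∧ IsCompactOperator L ∧
      S * T = 1 - K ∧ T * S = 1 - L := by
  set V : Submodule ℂ H := LinearMap.ker (T : H →ₗ[ℂ] H) with hV
  set R : Submodule ℂ H := LinearMap.range (T : H →ₗ[ℂ] H) with hR
  have hVc : IsClosed (V : Set H) := T.isClosed_ker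
  have hRc : IsClosed (R : Set H) := hT.closed_range
  have : CompleteSpace V := hVc.completeSpace_coe
  have : CompleteSpace R := hRc.completeSpace_coe
  have hVf : FiniteDimensional ℂ V := hT.finite_ker
  have hQf : FiniteDimensional ℂ (H ⧸ R) := hT.finite_coker
  let T₁ : Vᗮ →L[ℂ] R := (T ∘L Vᗮ.subtypeL).codRestrict R (fun x => ⟨x, rfl⟩)
  have hbij : Function.Bijective T₁ := by
    constructor
    · rw [injective_iff_map_eq_zero]
      rintro ⟨x, hx⟩ h
      have hx' : x ∈ V := congrArg Subtype.val h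
      have : x ∈ V ⊓ Vᗮ := ⟨hx', hx⟩
      rw [V.inf_orthogonal_eq_bot] at this
      simpa using this
    · rintro ⟨_, x, rfl⟩
      refine ⟨⟨x - V.starProjection x, V.sub_starProjection_mem_orthogonal x⟩, ?_⟩
      have h2 : T (V.starProjection x) = 0 := V.starProjection_apply_mem x
      apply Subtype.ext
      change T (x - V.starProjection x) = T x
      rw [map_sub, h2, sub_zero]
  let e := ContinuousLinearEquiv.ofBijective T₁ (LinearMap.ker_eq_bot.2 hbij.1)
    (LinearMap.range_eq_top.2 hbij.2)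
  have he1 : ∀ x, T₁ (e.symm x) = x := fun x =>
    ContinuousLinearEquiv.ofBijective_apply_symm_apply T₁ (LinearMap.ker_eq_bot.2 hbij.1)
    (LinearMap.range_eq_top.2 hbij.2) x
  let S : H →L[ℂ] H := Vᗮ.subtypeL ∘L (e.symm : R →L[ℂ] Vᗮ) ∘L R.orthogonalProjectionOnto
  have hRof : FiniteDimensional ℂ Rᗮ := by
    have hinj : Function.Injective (R.mkQ ∘ₗ Rᗮ.subtype) := by
      rw [injective_iff_map_eq_zero]
      rintro ⟨x, hx⟩ h
      have hx' : x ∈ R := by
        rw [← Submodule.Quotient.mk_eq_zero]; exact h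
      have : x ∈ R ⊓ Rᗮ := ⟨hx', hx⟩
      rw [R.inf_orthogonal_eq_bot] at this
      simpa using this
    exact FiniteDimensional.of_injective _ hinj
  refine ⟨S, V.starProjection, Rᗮ.starProjection, ?_, ?_, ?_, ?_⟩
  · exact compact_through_fin V.subtypeL V.orthogonalProjectionOnto
  · exact compact_through_fin Rᗮ.subtypeL Rᗮ.orthogonalProjectionOnto
  · ext x
    have h1 : R.orthogonalProjectionOnto (T x) = ⟨T x, x, rfl⟩ :=
      Submodule.orthogonalProjectionOnto_mem_subspace_eq_self (⟨T x, x, rfl⟩ : R)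
    have h2 : e.symm ⟨T x, x, rfl⟩ =
        ⟨x - V.starProjection x, V.sub_starProjection_mem_orthogonal x⟩ := by
      apply hbij.1
      rw [he1]
      apply Subtype.ext
      change T x = T (x - V.starProjection x)
      have h2 : T (V.starProjection x) = 0 := V.starProjection_apply_mem x
      rw [map_sub, h2, sub_zero]
    change ((e.symm (R.orthogonalProjectionOnto (T x)) : Vᗮ) : H) = x - V.starProjection x
    rw [h1, h2]
  · ext x
    change T ((e.symm (R.orthogonalProjectionOnto x) : Vᗮ) : H) = x - Rᗮ.starProjection x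
    have h1 : T ((e.symm (R.orthogonalProjectionOnto x) : Vᗮ) : H) = R.starProjection x := by
      have := congrArg Subtype.val (he1 (R.orthogonalProjectionOnto x))
      exact this
    rw [h1, Submodule.starProjection_orthogonal_val]
    abel

/-- Compact perturbations of Fredholm operators have finite-dimensional kernel and cokernel. -/
lemma IsFredholmOp.perturb {T K : H →L[ℂ] H} (hT : IsFredholmOp T) (hK : IsCompactOperator K) :
    FiniteDimensional ℂ (LinearMap.ker ((T + K : H →L[ℂ] H) : H →ₗ[ℂ] H)) ∧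
    FiniteDimensional ℂ (H ⧸ LinearMap.range ((T + K : H →L[ℂ] H) : H →ₗ[ℂ] H)) := by
  obtain ⟨S, K₀, L₀, hK₀, hL₀, hST, hTS⟩ := hT.parametrix
  constructor
  · have h1 : S * (T + K) = (1 : ℂ) • (1 : H →L[ℂ] H) + (S * K - K₀) := by
      rw [mul_add, hST, one_smul]; abel
    have h2 : IsCompactOperator (S * K - K₀ : H →L[ℂ] H) := (hK.clm_comp S).sub hK₀
    have h3 := finite_ker_of_compact h2 one_ne_zero
    rw [← h1] at h3
    refine Submodule.finiteDimensional_of_le (S₂ := LinearMap.ker
      ((S * (T + K) : H →L[ℂ] H) : H →ₗ[ℂ] H)) ?_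
    intro x hx
    have hx' : (T + K) x = 0 := hx
    change (S * (T + K)) x = 0
    rw [mul_apply_eq_comp, hx', map_zero]
  · have h1 : (T + K) * S = (1 : ℂ) • (1 : H →L[ℂ] H) + (K * S - L₀) := by
      rw [add_mul, hTS, one_smul]; abel
    have h2 : IsCompactOperator (K * S - L₀ : H →L[ℂ] H) := (hK.comp_clm S).sub hL₀
    have h3 := (index_zero_of_compact h2 one_ne_zero).1
    rw [← h1] at h3
    have hle : LinearMap.range (((T + K) * S : H →L[ℂ] H) : H →ₗ[ℂ] H) ≤
        LinearMap.range ((T + K : H →L[ℂ] H) : H →ₗ[ℂ] H) := by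
      rintro _ ⟨x, rfl⟩
      exact ⟨S x, rfl⟩
    exact Module.Finite.of_surjective (Submodule.factor hle) (Submodule.factor_surjective hle)

/-- An operator whose kernel and cokernel have the same finite dimension is a compact
perturbation of a bijective operator. -/
lemma exists_bijective_perturbation {A : H →L[ℂ] H}
    (hk : FiniteDimensional ℂ (LinearMap.ker (A : H →ₗ[ℂ] H)))
    (hr : FiniteDimensional ℂ (H ⧸ LinearMap.range (A : H →ₗ[ℂ] H)))
    (heq : finrank ℂ (LinearMap.ker (A : H →ₗ[ℂ] H)) =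
      finrank ℂ (H ⧸ LinearMap.range (A : H →ₗ[ℂ] H))) :
    ∃ F : H →L[ℂ] H, IsCompactOperator F ∧ Function.Bijective (A + F) := by
  set K : Submodule ℂ H := LinearMap.ker (A : H →ₗ[ℂ] H) with hK
  set R : Submodule ℂ H := LinearMap.range (A : H →ₗ[ℂ] H) with hR
  obtain ⟨s, hs⟩ := LinearMap.exists_rightInverse_of_surjective R.mkQ R.range_mkQ
  have hs' : ∀ q, R.mkQ (s q) = q := fun q => by
    have := LinearMap.congr_fun hs q
    simpa using this
  have hAR : ∀ x, R.mkQ (A x) = 0 := by
    intro x
    rw [Submodule.mkQ_apply, Submodule.Quotient.mk_eq_zero]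
    exact ⟨x, rfl⟩
  let φ : K ≃ₗ[ℂ] (H ⧸ R) := LinearEquiv.ofFinrankEq _ _ heq
  let P : H →L[ℂ] K := K.orthogonalProjectionOnto
  have hP : ∀ k : K, P (k : H) = k := fun k =>
    Submodule.orthogonalProjectionOnto_mem_subspace_eq_self k
  let J : K →L[ℂ] H := LinearMap.toContinuousLinearMap (s ∘ₗ (φ : K →ₗ[ℂ] (H ⧸ R)))
  have hA' : ∀ x, (A + J ∘L P) x = A x + s (φ (P x)) := fun x => rfl
  have hq : ∀ x, R.mkQ ((A + J ∘L P) x) = φ (P x) := by
    intro x
    rw [hA', map_add, hAR, hs', zero_add]
  refine ⟨J ∘L P, compact_through_fin J P, ?_, ?_⟩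
  · rw [injective_iff_map_eq_zero]
    intro x hx
    have h1 := hq x
    rw [hx, map_zero] at h1
    have h2 : P x = 0 := φ.injective (by rw [map_zero]; exact h1.symm)
    rw [hA', h2, map_zero, map_zero, add_zero] at hx
    have h3 := hP ⟨x, hx⟩
    change P x = _ at h3
    rw [h2] at h3
    exact (congrArg Subtype.val h3).symm
  · intro y
    obtain ⟨k, hk⟩ := φ.surjective (R.mkQ y)
    have h1 : y - s (φ k) ∈ R := by
      rw [← Submodule.Quotient.mk_eq_zero, ← Submodule.mkQ_apply, map_sub, hs', hk, sub_self]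
    obtain ⟨x, hx⟩ := h1
    refine ⟨x - (P x : H) + k, ?_⟩
    have h2 : P (x - (P x : H) + k) = k := by
      rw [map_add, map_sub, hP, hP, sub_self, zero_add]
    have h3 : A (x - (P x : H) + k) = A x := by
      have h4 : A (P x : H) = 0 := (P x).2
      have h5 : A (k : H) = 0 := k.2
      rw [map_add, map_sub, h4, h5, sub_zero, add_zero]
    rw [hA', h2, h3]
    change A x = _ at hx
    rw [hx]; abel

/-- Compact perturbations of bijective operators have index zero. -/
lemma index_zero_of_bijective {G F : H →L[ℂ] H} (hG : Function.Bijective G)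
    (hF : IsCompactOperator F) :
    finrank ℂ (LinearMap.ker ((G + F : H →L[ℂ] H) : H →ₗ[ℂ] H)) =
      finrank ℂ (H ⧸ LinearMap.range ((G + F : H →L[ℂ] H) : H →ₗ[ℂ] H)) := by
  let e := ContinuousLinearEquiv.ofBijective G (LinearMap.ker_eq_bot.2 hG.1)
    (LinearMap.range_eq_top.2 hG.2)
  have he : ∀ x, G (e.symm x) = x := fun x =>
    ContinuousLinearEquiv.ofBijective_apply_symm_apply G (LinearMap.ker_eq_bot.2 hG.1)
    (LinearMap.range_eq_top.2 hG.2) x
  have hC : IsCompactOperator ((e.symm : H →L[ℂ] H) ∘L F : H →L[ℂ] H) := hF.clm_comp (e.symm : H →L[ℂ] H)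
  obtain ⟨-, h⟩ := index_zero_of_compact hC one_ne_zero
  set E : H →L[ℂ] H := (1 : ℂ) • (1 : H →L[ℂ] H) + (e.symm : H →L[ℂ] H) ∘L F with hE
  have hfac : ∀ x, (G + F) x = G (E x) := by
    intro x
    have : G (E x) = G x + G (e.symm (F x)) := by
      rw [hE]; simp
    rw [this, he]
    rfl
  have hk : LinearMap.ker ((G + F : H →L[ℂ] H) : H →ₗ[ℂ] H) =
      LinearMap.ker (E : H →ₗ[ℂ] H) := by
    ext x
    change (G + F) x = 0 ↔ E x = 0
    rw [hfac]
    constructor
    · intro h; apply hG.1; rw [h, map_zero]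
    · intro h; rw [h, map_zero]
  let e' : H ≃ₗ[ℂ] H := LinearEquiv.ofBijective (G : H →ₗ[ℂ] H) hG
  have hr : (LinearMap.range (E : H →ₗ[ℂ] H)).map (e' : H →ₗ[ℂ] H) =
      LinearMap.range ((G + F : H →L[ℂ] H) : H →ₗ[ℂ] H) := by
    ext y
    constructor
    · rintro ⟨_, ⟨x, rfl⟩, rfl⟩
      exact ⟨x, hfac x⟩
    · rintro ⟨x, rfl⟩
      exact ⟨E x, ⟨x, rfl⟩, (hfac x).symm⟩
  rw [hk, h]
  exact (Submodule.Quotient.equiv _ _ e' hr).finrank_eq

/-- The obstruction: a commuting invertible pair of compact perturbations forces index zero. -/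
lemma index_eq_zero_of_pair {T K₁ K₂ : H →L[ℂ] H} (hT : IsFredholmOp T)
    (hK₁ : IsCompactOperator K₁) (hK₂ : IsCompactOperator K₂)
    (hcomm : Commute (T + K₁) (T + K₂)) (hinv : TaylorInvertible (T + K₁) (T + K₂)) :
    index T = 0 := by
  obtain ⟨hk, hr⟩ := hT.perturb hK₁
  have hD : IsCompactOperator (K₁ - K₂ : H →L[ℂ] H) := hK₁.sub hK₂
  have hDeq : ∀ x, (K₁ - K₂) x = (T + K₁) x - (T + K₂) x := by
    intro x; simp
  have hA := index_zero_of_commuting hk hr hD
    (by
      intro x
      have h1 : (T + K₁) ((T + K₂) x) = (T + K₂) ((T + K₁) x) :=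
        congrArg (fun S : H →L[ℂ] H => S x) hcomm.eq
      rw [hDeq, hDeq, map_sub, h1])
    (by
      intro x h1 h2
      rw [hDeq, h1, zero_sub, neg_eq_zero] at h2
      exact hinv.1 x h1 h2)
    (by
      intro y
      obtain ⟨u, v, huv⟩ := hinv.2.1 y
      refine ⟨u + v, -v, ?_⟩
      rw [hDeq, ← huv, map_add, map_neg, map_neg]
      abel)
  obtain ⟨F, hF, hbij⟩ := exists_bijective_perturbation hk hr hA
  have h1 := index_zero_of_bijective hbij (F := -F - K₁) (hF.neg.sub hK₁)
  have h2 : T + K₁ + F + (-F - K₁) = T := by abel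
  rw [h2] at h1
  unfold index
  rw [h1, sub_self]

/-- On an infinite-dimensional Hilbert space there is a Fredholm operator of nonzero index. -/
lemma exists_index_ne_zero (hH : ¬ FiniteDimensional ℂ H) :
    ∃ T : H →L[ℂ] H, IsFredholmOp T ∧ index T ≠ 0 := by
  classical
  obtain ⟨w, b, hb⟩ := exists_hilbertBasis ℂ H
  have hinf : Infinite w := by
    by_contra hfin
    rw [not_infinite_iff_finite] at hfin
    apply hH
    have : Fintype w := Fintype.ofFinite w
    exact b.toOrthonormalBasis.toBasis.finiteDimensional_of_finite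
  -- an injection missing exactly one point
  have hcard : Nonempty (Option w ≃ w) := by
    rw [← Cardinal.eq, Cardinal.mk_option]
    exact Cardinal.add_one_eq (Cardinal.infinite_iff.1 hinf)
  obtain ⟨e⟩ := hcard
  let f : w → w := fun i => e (some i)
  have hf : Function.Injective f := fun i j h => Option.some_injective _ (e.injective h)
  let u : H := b (e none)
  have hu1 : inner ℂ u u = (1 : ℂ) := by
    rw [inner_self_eq_norm_sq_to_K, b.orthonormal.1]; simp
  have hort : Orthonormal ℂ (fun i => b (f i)) := b.orthonormal.comp f hf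
  let V := hort.orthogonalFamily.linearIsometry
  have hVsingle : ∀ i, ∀ a : ℂ, V (lp.single 2 i a) = a • b (f i) := by
    intro i a
    exact hort.orthogonalFamily.linearIsometry_apply_single a
  have hVu : ∀ y, inner ℂ u (V y) = (0 : ℂ) := by
    intro y
    have h1 := (hort.orthogonalFamily.hasSum_linearIsometry y).mapL (innerSL ℂ u)
    have h2 : ∀ i, (innerSL ℂ u) ((LinearIsometry.toSpanSingleton ℂ H (hort.1 i)) (y i)) = 0 := by
      intro i
      have h3 : inner ℂ u (b (f i)) = (0 : ℂ) :=
        b.orthonormal.2 (fun h => by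
          have := e.injective h
          exact absurd this (by simp))
      change inner ℂ u (y i • b (f i)) = 0
      rw [inner_smul_right, h3, mul_zero]
    have h3 : (fun i => (innerSL ℂ u) ((LinearIsometry.toSpanSingleton ℂ H (hort.1 i)) (y i))) =
        fun _ => (0 : ℂ) := funext h2
    rw [h3] at h1
    exact h1.unique hasSum_zero
  let T₀ : H →ₗᵢ[ℂ] H := V.comp b.repr.toLinearIsometry
  let T : H →L[ℂ] H := T₀.toContinuousLinearMap
  have hTb : ∀ i, T (b i) = b (f i) := by
    intro i
    have h1 := hVsingle i 1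
    rw [one_smul] at h1
    change V (b.repr (b i)) = b (f i)
    rw [b.repr_self]
    exact h1
  have hTu : ∀ x, inner ℂ u (T x) = (0 : ℂ) := fun x => hVu _
  set R : Submodule ℂ H := LinearMap.range (T : H →ₗ[ℂ] H) with hR
  have hRc : IsClosed (R : Set H) := by
    have h1 := T₀.isometry.isClosedEmbedding.isClosed_range
    have h2 : (R : Set H) = Set.range T₀ := rfl
    rw [h2]
    exact h1
  have hker : LinearMap.ker (T : H →ₗ[ℂ] H) = ⊥ :=
    LinearMap.ker_eq_bot.2 T₀.injective
  have : CompleteSpace R := hRc.completeSpace_coe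
  have huR : R.mkQ u ≠ 0 := by
    intro h
    rw [Submodule.mkQ_apply, Submodule.Quotient.mk_eq_zero] at h
    obtain ⟨x, hx⟩ := h
    have h1 := hTu x
    change T x = u at hx
    rw [hx, hu1] at h1
    exact one_ne_zero h1
  have hsurj : Function.Surjective (LinearMap.toSpanSingleton ℂ (H ⧸ R) (R.mkQ u)) := by
    intro q
    obtain ⟨x, rfl⟩ := R.mkQ_surjective q
    refine ⟨inner ℂ u x, ?_⟩
    rw [LinearMap.toSpanSingleton_apply]
    -- the difference is orthogonal to every basis vector
    have hz : x - R.starProjection x - (inner ℂ u x : ℂ) • u = 0 := by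
      apply b.repr.injective
      rw [map_zero]
      ext i
      rw [b.repr_apply_apply]
      change inner ℂ (b i) (x - R.starProjection x - (inner ℂ u x : ℂ) • u) = 0
      have hproj : x - R.starProjection x ∈ Rᗮ := R.sub_starProjection_mem_orthogonal x
      rcases h : e.symm i with _ | j
      · have hi : i = e none := by rw [← h]; simp
        subst hi
        change inner ℂ u (x - R.starProjection x - (inner ℂ u x : ℂ) • u) = 0
        obtain ⟨z, hz⟩ := R.starProjection_apply_mem x
        have h1 : inner ℂ u (R.starProjection x) = (0 : ℂ) := by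
          rw [← hz]; exact hTu z
        rw [inner_sub_right, inner_sub_right, h1, inner_smul_right, hu1]
        simp
      · have hi : i = f j := by
          change i = e (some j)
          rw [← h]; simp
        subst hi
        have h1 : inner ℂ (b (f j)) (x - R.starProjection x) = (0 : ℂ) :=
          R.inner_right_of_mem_orthogonal ⟨b j, hTb j⟩ hproj
        have h2 : inner ℂ (b (f j)) u = (0 : ℂ) :=
          b.orthonormal.2 (fun h' => by
            have := e.injective h'
            exact absurd this (by simp))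
        rw [inner_sub_right, h1, inner_smul_right, h2]
        simp
    have hx : x = R.starProjection x + (inner ℂ u x : ℂ) • u := by
      rw [sub_sub] at hz
      exact sub_eq_zero.1 hz
    have h1 : R.mkQ (R.starProjection x) = 0 := by
      rw [Submodule.mkQ_apply, Submodule.Quotient.mk_eq_zero]
      exact R.starProjection_apply_mem x
    calc (inner ℂ u x : ℂ) • R.mkQ u = R.mkQ (R.starProjection x + (inner ℂ u x : ℂ) • u) := by
          rw [map_add, h1, zero_add, map_smul]
      _ = R.mkQ x := by rw [← hx]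
  have hfin : FiniteDimensional ℂ (H ⧸ R) := Module.Finite.of_surjective _ hsurj
  refine ⟨T, ⟨hRc, ?_, hfin⟩, ?_⟩
  · rw [hker]; infer_instance
  · unfold index
    rw [hker, finrank_bot]
    have : Nontrivial (H ⧸ R) := ⟨_, _, huR⟩
    have h1 : 0 < finrank ℂ (H ⧸ R) := finrank_pos
    simp only [Nat.cast_zero, zero_sub, ne_eq, neg_eq_zero, Nat.cast_eq_zero]
    exact h1.ne'

/-- The property asked for in the question: there are compact operators `K₁`, `K₂` such that
`T + K₁` and `T + K₂` commute and the pair `(T + K₁, T + K₂)` is invertible. -/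
def HasCommutingInvertiblePerturbation (T : H →L[ℂ] H) : Prop :=
  ∃ K₁ K₂ : H →L[ℂ] H, IsCompactOperator K₁ ∧ IsCompactOperator K₂ ∧
    Commute (T + K₁) (T + K₂) ∧ TaylorInvertible (T + K₁) (T + K₂)

end Pool.Agent.Results.MP_b56e9d_an.CommutingPerturbation

namespace Pool.Agent.Results.MP_b56e9d_an.CommutingPerturbation

open Module

/-- **Full answer.** A Fredholm operator `T` has compact perturbations `T + K₁`, `T + K₂` which
commute and form an invertible pair if and only if `index T = 0`; in particular, on every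
infinite-dimensional Hilbert space there is a Fredholm operator without this property. -/
theorem result (H : Type*) [NormedAddCommGroup H] [InnerProductSpace ℂ H] [CompleteSpace H] :
    (∀ T : H →L[ℂ] H, IsFredholmOp T →
      (HasCommutingInvertiblePerturbation T ↔ index T = 0)) ∧
    (¬ FiniteDimensional ℂ H → ∃ T : H →L[ℂ] H, IsFredholmOp T ∧
      ¬ HasCommutingInvertiblePerturbation T) := by
  have main : ∀ T : H →L[ℂ] H, IsFredholmOp T →
      (HasCommutingInvertiblePerturbation T ↔ index T = 0) := by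
    intro T hT
    constructor
    · rintro ⟨K₁, K₂, h₁, h₂, hc, hi⟩
      exact index_eq_zero_of_pair hT h₁ h₂ hc hi
    · intro h
      have heq : finrank ℂ (LinearMap.ker (T : H →ₗ[ℂ] H)) =
          finrank ℂ (H ⧸ LinearMap.range (T : H →ₗ[ℂ] H)) := by
        unfold index at h
        omega
      obtain ⟨F, hF, hbij⟩ := exists_bijective_perturbation hT.finite_ker hT.finite_coker heq
      refine ⟨F, F, hF, hF, Commute.refl _, ?_, ?_, ?_⟩
      · intro x hx _
        apply hbij.1
        rw [hx, map_zero]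
      · intro y
        obtain ⟨u, hu⟩ := hbij.2 y
        exact ⟨u, 0, by rw [hu, map_zero, add_zero]⟩
      · intro x y hxy
        have : y = x := hbij.1 hxy
        obtain ⟨z, hz⟩ := hbij.2 x
        exact ⟨z, hz.symm, by rw [this, hz]⟩
  refine ⟨main, fun hH => ?_⟩
  obtain ⟨T, hT, hidx⟩ := exists_index_ne_zero hH
  exact ⟨T, hT, fun h => hidx ((main T hT).1 h)⟩

end Pool.Agent.Results.MP_b56e9d_an.CommutingPerturbation
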